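import Mathlib

set_option autoImplicit false

open Finset

namespace Pool.Agent.Results.MP_253cbc_nt.ExponentLogThree

open ArithmeticFunction in
/-- If a prime divides the sum of divisors of a squarefree number `t`, it divides `p + 1` for some
prime divisor `p` of `t`. -/
lemma dvd_sigma_squarefree (q : ℕ) (hq : q.Prime) : ∀ t : ℕ, Squarefree t →
    q ∣ sigma 1 t → ∃ p, p.Prime ∧ p ∣ t ∧ q ∣ p + 1 := by
  intro t
  induction t using Nat.strong_induction_on with
  | _ t ih =>
    intro ht hqt
    have ht0 : t ≠ 0 := ht.ne_zero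
    by_cases h1 : t = 1
    · subst h1
      rw [sigma_one] at hqt
      exact absurd (Nat.dvd_one.mp hqt) hq.one_lt.ne'
    · obtain ⟨p, hp, m, rfl⟩ := Nat.exists_prime_and_dvd h1
      have hsq := ht
      rw [Nat.squarefree_mul_iff] at hsq
      obtain ⟨hcop, -, hm⟩ := hsq
      rw [isMultiplicative_sigma.map_mul_of_coprime hcop] at hqt
      rcases (Nat.Prime.dvd_mul hq).mp hqt with h | h
      · refine ⟨p, hp, Dvd.intro _ rfl, ?_⟩
        have : sigma 1 p = p + 1 := by
          have := sigma_one_apply_prime_pow (p := p) (i := 1) hp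
          simp only [pow_one] at this
          rw [this]
          simp [Finset.sum_range_succ]
          ring
        rwa [this] at h
      · have hm0 : 0 < m := Nat.pos_of_ne_zero (by rintro rfl; simp at ht0)
        have hlt : m < p * m := by nlinarith [hp.two_le]
        obtain ⟨p', h1, h2, h3⟩ := ih m hlt hm h
        exact ⟨p', h1, Dvd.dvd.mul_left h2 p, h3⟩

open ArithmeticFunction in
lemma sigma_prime_mul {p m : ℕ} (hp : p.Prime) (hcop : Nat.Coprime p m) :
    sigma 1 (p * m) = (p + 1) * sigma 1 m := by
  rw [isMultiplicative_sigma.map_mul_of_coprime hcop]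
  congr 1
  have := sigma_one_apply_prime_pow (p := p) (i := 1) hp
  simp only [pow_one] at this
  rw [this]
  simp [Finset.sum_range_succ]
  ring

open ArithmeticFunction in
/-- A prime `P ≥ 5` that is the largest prime factor of `t σ(t)`, `t` squarefree, divides `t`. -/
lemma largest_dvd {t P : ℕ} (ht : Squarefree t) (hP : P.Prime) (h5 : 5 ≤ P)
    (hPn : P ∣ t * sigma 1 t) (hmax : ∀ q, q.Prime → q ∣ t * sigma 1 t → q ≤ P) : P ∣ t := by
  rcases (Nat.Prime.dvd_mul hP).mp hPn with h | h
  · exact h
  · obtain ⟨p, hp, hpt, hd⟩ := dvd_sigma_squarefree P hP t ht h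
    have h1 := hmax p hp (Dvd.dvd.mul_right hpt _)
    have h2 : P ≤ p + 1 := Nat.le_of_dvd (Nat.succ_pos _) hd
    rcases Nat.lt_or_ge p P with h3 | h3
    · have h4 : P = p + 1 := by omega
      have h5' : p % 2 = 1 := by
        rcases hp.eq_two_or_odd with h | h
        · omega
        · exact h
      have h6 : P % 2 = 1 := by
        rcases hP.eq_two_or_odd with h | h
        · omega
        · exact h
      omega
    · have : p = P := le_antisymm h1 h3
      rw [← this]; exact hpt

open ArithmeticFunction in
/-- On squarefree numbers `t ↦ t σ(t)` is injective. -/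
lemma sqfree_inj : ∀ t u : ℕ, Squarefree t → Squarefree u →
    t * sigma 1 t = u * sigma 1 u → t = u := by
  intro t
  induction t using Nat.strong_induction_on with
  | _ t ih =>
    intro u ht hu h
    have hn0 : t * sigma 1 t ≠ 0 :=
      Nat.mul_ne_zero ht.ne_zero (sigma_pos 1 t ht.ne_zero).ne'
    by_cases hbig : ∃ P, P.Prime ∧ P ∣ t * sigma 1 t ∧ 5 ≤ P
    · -- take the largest prime factor
      have hne : (t * sigma 1 t).primeFactors.Nonempty := by
        obtain ⟨P, h1, h2, -⟩ := hbig
        exact ⟨P, Nat.mem_primeFactors.mpr ⟨h1, h2, hn0⟩⟩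
      obtain ⟨P, hP, hPd, hmax⟩ : ∃ P, P.Prime ∧ P ∣ t * sigma 1 t ∧
          ∀ q, q.Prime → q ∣ t * sigma 1 t → q ≤ P := by
        have hPmem := (t * sigma 1 t).primeFactors.max'_mem hne
        rw [Nat.mem_primeFactors] at hPmem
        exact ⟨_, hPmem.1, hPmem.2.1, fun q hq hqd =>
          Finset.le_max' _ _ (Nat.mem_primeFactors.mpr ⟨hq, hqd, hn0⟩)⟩
      have h5 : 5 ≤ P := by
        obtain ⟨Q, h1, h2, h3⟩ := hbig
        exact h3.trans (hmax Q h1 h2)
      have hPt := largest_dvd ht hP h5 hPd hmax
      have hPu := largest_dvd hu hP h5 (h ▸ hPd) (by intro q h1 h2; exact hmax q h1 (h ▸ h2))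
      obtain ⟨t1, rfl⟩ := hPt
      obtain ⟨u1, rfl⟩ := hPu
      have ht' := ht
      have hu' := hu
      rw [Nat.squarefree_mul_iff] at ht' hu'
      have h1 : t1 * sigma 1 t1 = u1 * sigma 1 u1 := by
        rw [sigma_prime_mul hP ht'.1, sigma_prime_mul hP hu'.1] at h
        have h2 : (P * (P + 1)) * (t1 * sigma 1 t1) = (P * (P + 1)) * (u1 * sigma 1 u1) := by
          rw [show P * (P + 1) * (t1 * sigma 1 t1) = P * t1 * ((P + 1) * sigma 1 t1) by ring,
            show P * (P + 1) * (u1 * sigma 1 u1) = P * u1 * ((P + 1) * sigma 1 u1) by ring]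
          exact h
        exact Nat.eq_of_mul_eq_mul_left (by positivity) h2
      have hlt : t1 < P * t1 := by
        have : 0 < t1 := Nat.pos_of_ne_zero ht'.2.2.ne_zero
        nlinarith [hP.two_le]
      rw [ih t1 hlt u1 ht'.2.2 hu'.2.2 h1]
    · push Not at hbig
      have key : ∀ w : ℕ, Squarefree w → w * sigma 1 w = t * sigma 1 t → w ∣ 6 := by
        intro w hw hwt
        have hsub : w.primeFactors ⊆ Nat.primeFactors 6 := by
          intro q hq
          rw [Nat.mem_primeFactors] at hq
          have hq5 := hbig q hq.1 (hwt ▸ Dvd.dvd.mul_right hq.2.1 _)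
          rw [Nat.mem_primeFactors]
          refine ⟨hq.1, ?_, by norm_num⟩
          have := hq.1.two_le
          interval_cases q
          · norm_num
          · norm_num
          · exact absurd hq.1 (by norm_num)
        have := Nat.prod_primeFactors_of_squarefree hw
        rw [← this]
        exact (Finset.prod_dvd_prod_of_subset _ _ _ hsub).trans (Nat.prod_primeFactors_dvd 6)
      have ht6 := key t ht rfl
      have hu6 := key u hu h.symm
      have hmem : ∀ w : ℕ, w ∣ 6 → w = 1 ∨ w = 2 ∨ w = 3 ∨ w = 6 := by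
        intro w hw
        have : w ∈ Nat.divisors 6 := Nat.mem_divisors.mpr ⟨hw, by norm_num⟩
        have h6 : Nat.divisors 6 = {1, 2, 3, 6} := by decide
        rw [h6] at this
        simpa using this
      have s1 : sigma 1 1 = 1 := by decide
      have s2 : sigma 1 2 = 3 := by decide
      have s3 : sigma 1 3 = 4 := by decide
      have s6 : sigma 1 6 = 12 := by decide
      rcases hmem t ht6 with rfl | rfl | rfl | rfl <;>
        rcases hmem u hu6 with rfl | rfl | rfl | rfl <;>
        simp [s1, s2, s3, s6] at h ⊢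

/-- The powerful part of `x`. -/
def powPart (x : ℕ) : ℕ :=
  ∏ p ∈ x.primeFactors.filter (fun p => x.factorization p ≠ 1), p ^ x.factorization p

/-- The squarefree part of `x`, the product of the primes dividing it exactly once. -/
def sqfPart (x : ℕ) : ℕ :=
  ∏ p ∈ x.primeFactors.filter (fun p => x.factorization p = 1), p

lemma powPart_mul_sqfPart {x : ℕ} (hx : x ≠ 0) : powPart x * sqfPart x = x := by
  have h : sqfPart x = ∏ p ∈ x.primeFactors.filter (fun p => x.factorization p = 1),
      p ^ x.factorization p := by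
    unfold sqfPart
    apply Finset.prod_congr rfl
    intro p hp
    rw [(Finset.mem_filter.mp hp).2, pow_one]
  rw [h, powPart, mul_comm, Finset.prod_filter_mul_prod_filter_not]
  exact Nat.prod_factorization_pow_eq_self hx

lemma coprime_parts (x : ℕ) : Nat.Coprime (powPart x) (sqfPart x) := by
  unfold powPart sqfPart
  apply Nat.Coprime.prod_left
  intro p hp
  apply Nat.Coprime.prod_right
  intro q hq
  rw [Finset.mem_filter, Nat.mem_primeFactors] at hp hq
  apply Nat.Coprime.pow_left
  rw [Nat.coprime_primes hp.1.1 hq.1.1]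
  rintro rfl
  exact hp.2 hq.2

lemma squarefree_sqfPart (x : ℕ) : Squarefree (sqfPart x) := by
  unfold sqfPart
  have : ∀ s : Finset ℕ, (∀ p ∈ s, p.Prime) → Squarefree (∏ p ∈ s, p) := by
    intro s
    induction s using Finset.induction_on with
    | empty => intro _; simp
    | insert a s ha ih =>
      intro h
      rw [Finset.prod_insert ha, Nat.squarefree_mul_iff]
      refine ⟨?_, (h a (Finset.mem_insert_self a s)).squarefree,
        ih (fun p hp => h p (Finset.mem_insert_of_mem hp))⟩
      apply Nat.Coprime.prod_right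
      intro q hq
      rw [Nat.coprime_primes (h a (Finset.mem_insert_self a s)) (h q (Finset.mem_insert_of_mem hq))]
      rintro rfl
      exact ha hq
  apply this
  intro p hp
  exact (Nat.mem_primeFactors.mp (Finset.mem_filter.mp hp).1).1

lemma factorization_powPart (x q : ℕ) : (powPart x).factorization q ≠ 1 := by
  have h : (powPart x).factorization =
      ∑ p ∈ x.primeFactors.filter (fun p => x.factorization p ≠ 1),
        Finsupp.single p (x.factorization p) := by
    unfold powPart
    rw [Nat.factorization_prod]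
    · apply Finset.sum_congr rfl
      intro p hp
      have hpp := (Nat.mem_primeFactors.mp (Finset.mem_filter.mp hp).1).1
      exact hpp.factorization_pow
    · intro p hp
      have hpp := (Nat.mem_primeFactors.mp (Finset.mem_filter.mp hp).1).1
      exact pow_ne_zero _ hpp.ne_zero
  rw [h, Finsupp.finsetSum_apply]
  by_cases hq : q ∈ x.primeFactors.filter (fun p => x.factorization p ≠ 1)
  · rw [Finset.sum_eq_single q]
    · rw [Finsupp.single_eq_same]; exact (Finset.mem_filter.mp hq).2
    · intro b _ hb; rw [Finsupp.single_eq_of_ne' hb]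
    · intro h; exact absurd hq h
  · rw [Finset.sum_eq_zero]
    · norm_num
    · intro b hb
      rw [Finsupp.single_eq_of_ne']
      rintro rfl
      exact hq hb

/-- The set of solutions. -/
def sols (n : ℕ) : Finset ℕ :=
  (Finset.range (n + 1)).filter (fun x => x * ArithmeticFunction.sigma 1 x = n)

/-- Structural bound: the number of solutions is at most the product of the exponents of `n`. -/
lemma card_sols_le {n : ℕ} (hn : n ≠ 0) :
    (sols n).card ≤ ∏ p ∈ n.primeFactors, n.factorization p := by
  classical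
  have hcard : (n.primeFactors.pi (fun p => (Finset.range (n.factorization p + 1)).erase 1)).card
      = ∏ p ∈ n.primeFactors, n.factorization p := by
    rw [Finset.card_pi]
    apply Finset.prod_congr rfl
    intro p hp
    have hpos : 0 < n.factorization p := by
      rw [Nat.mem_primeFactors] at hp
      exact hp.1.factorization_pos_of_dvd hp.2.2 hp.2.1
    rw [Finset.card_erase_of_mem (Finset.mem_range.mpr (by omega)), Finset.card_range]
    rfl
  rw [← hcard]
  have hx0 : ∀ x ∈ sols n, x ≠ 0 := by
    intro x hx h0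
    rw [sols, Finset.mem_filter, h0, zero_mul] at hx
    exact hn hx.2.symm
  have hdvd : ∀ x ∈ sols n, powPart x ∣ n := by
    intro x hx
    have h1 : x ∣ n := by
      rw [sols, Finset.mem_filter] at hx
      exact Dvd.intro _ hx.2
    exact (Dvd.intro _ (powPart_mul_sqfPart (hx0 x hx))).trans h1
  apply Finset.card_le_card_of_injOn (fun x => fun p _ => (powPart x).factorization p)
  · intro x hx
    rw [Finset.mem_coe] at hx ⊢
    rw [Finset.mem_pi]
    intro p _
    rw [Finset.mem_erase, Finset.mem_range]
    refine ⟨factorization_powPart x p, ?_⟩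
    show (powPart x).factorization p < n.factorization p + 1
    have h2 : powPart x ≠ 0 := fun h => hn (by simpa [h] using hdvd x hx)
    have := (Nat.factorization_le_iff_dvd h2 hn).mpr (hdvd x hx) p
    omega
  · intro x hx y hy hxy
    rw [Finset.mem_coe] at hx hy
    have hpx : powPart x ≠ 0 := fun h => hn (by simpa [h] using hdvd x hx)
    have hpy : powPart y ≠ 0 := fun h => hn (by simpa [h] using hdvd y hy)
    have hs : powPart x = powPart y := by
      apply Nat.eq_of_factorization_eq hpx hpy
      intro p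
      by_cases hp : p ∈ n.primeFactors
      · exact congrFun (congrFun hxy p) hp
      · have h1 : ¬ (p.Prime ∧ p ∣ n) := fun h => hp (Nat.mem_primeFactors.mpr ⟨h.1, h.2, hn⟩)
        have h2 : ∀ z, powPart z ∣ n → (powPart z).factorization p = 0 := by
          intro z hz
          by_cases hpp : p.Prime
          · apply Nat.factorization_eq_zero_of_not_dvd
            intro h3
            exact h1 ⟨hpp, h3.trans hz⟩
          · exact Nat.factorization_eq_zero_of_not_prime _ hpp
        rw [h2 x (hdvd x hx), h2 y (hdvd y hy)]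
    have hnx : x * ArithmeticFunction.sigma 1 x = n := (Finset.mem_filter.mp hx).2
    have hny : y * ArithmeticFunction.sigma 1 y = n := (Finset.mem_filter.mp hy).2
    have ex : x * ArithmeticFunction.sigma 1 x = (powPart x * ArithmeticFunction.sigma 1 (powPart x))
        * (sqfPart x * ArithmeticFunction.sigma 1 (sqfPart x)) := by
      conv_lhs => rw [← powPart_mul_sqfPart (hx0 x hx)]
      rw [ArithmeticFunction.isMultiplicative_sigma.map_mul_of_coprime (coprime_parts x)]
      ring
    have ey : y * ArithmeticFunction.sigma 1 y = (powPart y * ArithmeticFunction.sigma 1 (powPart y))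
        * (sqfPart y * ArithmeticFunction.sigma 1 (sqfPart y)) := by
      conv_lhs => rw [← powPart_mul_sqfPart (hx0 y hy)]
      rw [ArithmeticFunction.isMultiplicative_sigma.map_mul_of_coprime (coprime_parts y)]
      ring
    have h1 : sqfPart x * ArithmeticFunction.sigma 1 (sqfPart x)
        = sqfPart y * ArithmeticFunction.sigma 1 (sqfPart y) := by
      rw [ex, ← hny, ey, hs] at hnx
      have hpos : 0 < powPart y * ArithmeticFunction.sigma 1 (powPart y) :=
        Nat.mul_pos (Nat.pos_of_ne_zero hpy) (ArithmeticFunction.sigma_pos 1 _ hpy)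
      exact Nat.eq_of_mul_eq_mul_left hpos hnx
    have h2 := sqfree_inj _ _ (squarefree_sqfPart x) (squarefree_sqfPart y) h1
    rw [← powPart_mul_sqfPart (hx0 x hx), ← powPart_mul_sqfPart (hx0 y hy), hs, h2]

lemma cube_le_three_pow : ∀ e : ℕ, e ^ 3 ≤ 3 ^ e
  | 0 => by norm_num
  | 1 => by norm_num
  | 2 => by norm_num
  | 3 => by norm_num
  | (e + 4) => by
    have ih := cube_le_three_pow (e + 3)
    have h1 : (e + 3) ^ 3 * 3 = (e + 4) ^ 3 + (2 * e ^ 3 + 15 * e ^ 2 + 33 * e + 17) := by ring
    have h2 : 3 ^ (e + 4) = 3 ^ (e + 3) * 3 := pow_succ 3 (e + 3)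
    rw [h2]
    calc (e + 4) ^ 3 ≤ (e + 3) ^ 3 * 3 := by rw [h1]; exact Nat.le_add_right _ _
      _ ≤ 3 ^ (e + 3) * 3 := Nat.mul_le_mul_right 3 ih

lemma log_le_mul (e : ℕ) : Real.log e ≤ (Real.log 3 / 3) * e := by
  rcases Nat.eq_zero_or_pos e with rfl | he
  · simp
  · have h : ((e : ℝ)) ^ 3 ≤ (3 : ℝ) ^ e := by exact_mod_cast cube_le_three_pow e
    have he' : (0 : ℝ) < e := by exact_mod_cast he
    have h2 := Real.log_le_log (by positivity) h
    rw [Real.log_pow, Real.log_pow] at h2
    push_cast at h2
    linarith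

lemma sum_log_le {n : ℕ} {y M : ℝ} (hy : 1 < y) (hM : 1 ≤ M)
    (hMn : ∀ p ∈ n.primeFactors, (n.factorization p : ℝ) ≤ M) :
    ∑ p ∈ n.primeFactors, Real.log (n.factorization p) ≤
      y * Real.log M + (Real.log 3 / 3) * (Real.log n / Real.log y) := by
  have hlogy : 0 < Real.log y := Real.log_pos hy
  have hlogM : 0 ≤ Real.log M := Real.log_nonneg hM
  have hlog3 : 0 < Real.log 3 := Real.log_pos (by norm_num)
  have hpt : ∀ p ∈ n.primeFactors, Real.log (n.factorization p) ≤
      (if (p : ℝ) ≤ y then Real.log M else 0) +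
        (Real.log 3 / 3) * ((n.factorization p : ℝ) * Real.log p / Real.log y) := by
    intro p hp
    rw [Nat.mem_primeFactors] at hp
    have hpos : 0 < n.factorization p := hp.1.factorization_pos_of_dvd hp.2.2 hp.2.1
    have hpos' : (0 : ℝ) < n.factorization p := by exact_mod_cast hpos
    have hp1 : (1 : ℝ) < p := by exact_mod_cast hp.1.one_lt
    have hlogp : 0 < Real.log p := Real.log_pos hp1
    by_cases hpy : (p : ℝ) ≤ y
    · rw [if_pos hpy]
      have h1 : Real.log (n.factorization p) ≤ Real.log M :=
        Real.log_le_log hpos' (hMn p (Nat.mem_primeFactors.mpr hp))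
      have h2 : 0 ≤ (Real.log 3 / 3) * ((n.factorization p : ℝ) * Real.log p / Real.log y) := by
        positivity
      linarith
    · rw [if_neg hpy, zero_add]
      have h1 := log_le_mul (n.factorization p)
      have h2 : (n.factorization p : ℝ) ≤ (n.factorization p : ℝ) * Real.log p / Real.log y := by
        rw [le_div_iff₀ hlogy]
        have : Real.log y ≤ Real.log p := Real.log_le_log (by linarith) (not_le.mp hpy).le
        exact mul_le_mul_of_nonneg_left this hpos'.le
      calc Real.log (n.factorization p) ≤ (Real.log 3 / 3) * (n.factorization p) := h1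
        _ ≤ _ := mul_le_mul_of_nonneg_left h2 (by positivity)
  refine (Finset.sum_le_sum hpt).trans ?_
  rw [Finset.sum_add_distrib]
  have h1 : ∑ p ∈ n.primeFactors, (if (p : ℝ) ≤ y then Real.log M else 0) ≤ y * Real.log M := by
    rw [← Finset.sum_filter, Finset.sum_const, nsmul_eq_mul]
    apply mul_le_mul_of_nonneg_right _ hlogM
    have hsub : n.primeFactors.filter (fun p : ℕ => (p : ℝ) ≤ y) ⊆ Finset.Icc 1 ⌊y⌋₊ := by
      intro p hp
      rw [Finset.mem_filter, Nat.mem_primeFactors] at hp
      rw [Finset.mem_Icc]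
      exact ⟨hp.1.1.one_lt.le, Nat.le_floor hp.2⟩
    have := Finset.card_le_card hsub
    rw [Nat.card_Icc, Nat.add_sub_cancel] at this
    calc ((n.primeFactors.filter (fun p : ℕ => (p : ℝ) ≤ y)).card : ℝ) ≤ (⌊y⌋₊ : ℝ) := by
          exact_mod_cast this
      _ ≤ y := Nat.floor_le (by linarith)
  have h2 : ∑ p ∈ n.primeFactors,
      (Real.log 3 / 3) * ((n.factorization p : ℝ) * Real.log p / Real.log y) =
      (Real.log 3 / 3) * (Real.log n / Real.log y) := by
    rw [← Finset.mul_sum, ← Finset.sum_div]
    congr 2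
    rw [Real.log_nat_eq_sum_factorization]
    rfl
  rw [h2]
  linarith

/-- **Theorem.** For every `c > (log 3)/3` one has `F(n) < n ^ (c / log log n)` for all large `n`,
where `F(n)` is the number of solutions `x` of `x σ(x) = n`. -/
theorem result (c : ℝ) (hc : Real.log 3 / 3 < c) :
    ∃ N : ℕ, ∀ n : ℕ, N ≤ n →
      ((((Finset.range (n + 1)).filter
        (fun x => 1 ≤ x ∧ x * ArithmeticFunction.sigma 1 x = n)).card : ℕ) : ℝ) <
        (n : ℝ) ^ (c / Real.log (Real.log n)) := by
  have hlog3 : 0 < Real.log 3 := Real.log_pos (by norm_num)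
  have hc0 : 0 < c := by linarith [hlog3]
  obtain ⟨c', hc1, hc2⟩ : ∃ c', Real.log 3 / 3 < c' ∧ c' < c := exists_between hc
  have hc'0 : 0 < c' := by linarith [hlog3]
  -- exponent `θ = 1 - η`
  obtain ⟨θ, hθ, hθ0, hθ1⟩ : ∃ θ : ℝ, Real.log 3 / 3 = θ * c' ∧ 0 < θ ∧ θ < 1 := by
    refine ⟨Real.log 3 / 3 / c', by field_simp, by positivity, ?_⟩
    rw [div_lt_one hc'0]; exact hc1
  have hη : 0 < 1 - θ := by linarith
  have hδ : 0 < (c - c') / 3 := by linarith
  -- eventually `(log L)^2 ≤ (c-c')/3 * L^(1-θ)`
  have hev := (isLittleO_log_rpow_rpow_atTop 2 hη).def hδ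
  have hev2 : ∀ᶠ L : ℝ in Filter.atTop, 2 * (Real.log L) ^ 2 < (c - c') * L ^ (1 - θ) := by
    filter_upwards [hev, Filter.eventually_gt_atTop 1] with L hL hL1
    have hl : 0 < Real.log L := Real.log_pos hL1
    have hp : 0 < L ^ (1 - θ) := Real.rpow_pos_of_pos (by linarith) _
    rw [Real.norm_of_nonneg (Real.rpow_nonneg hl.le _), Real.norm_of_nonneg hp.le] at hL
    have h2 : Real.log L ^ (2 : ℝ) = Real.log L ^ 2 := by
      rw [← Real.rpow_natCast]; norm_num
    rw [h2] at hL
    nlinarith
  have hlogtend : Filter.Tendsto (fun n : ℕ => Real.log (n : ℝ)) Filter.atTop Filter.atTop :=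
    Real.tendsto_log_atTop.comp tendsto_natCast_atTop_atTop
  have hev3 := hlogtend.eventually
    (hev2.and (Filter.eventually_gt_atTop (Real.exp 1)))
  obtain ⟨N, hN⟩ := Filter.eventually_atTop.mp hev3
  refine ⟨max N 2, fun n hn => ?_⟩
  obtain ⟨h1, h2⟩ := hN n (le_of_max_le_left hn)
  have hn2 : 2 ≤ n := le_of_max_le_right hn
  have hn0 : n ≠ 0 := by omega
  have hnpos : (0 : ℝ) < n := by exact_mod_cast Nat.pos_of_ne_zero hn0
  set L := Real.log (n : ℝ) with hL
  have he : (2 : ℝ) < Real.exp 1 := by
    have := Real.exp_one_gt_d9; linarith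
  have hL2 : 2 < L := he.trans h2
  have hL0 : 0 < L := by linarith
  have hlL : 1 < Real.log L := by
    rw [Real.lt_log_iff_exp_lt hL0]; exact h2
  -- the number of solutions
  have hcard : (((Finset.range (n + 1)).filter
        (fun x => 1 ≤ x ∧ x * ArithmeticFunction.sigma 1 x = n)).card) ≤
        ∏ p ∈ n.primeFactors, n.factorization p := by
    refine le_trans (Finset.card_le_card ?_) (card_sols_le hn0)
    intro x hx
    rw [sols]
    rw [Finset.mem_filter] at hx ⊢
    exact ⟨hx.1, hx.2.2⟩
  have hprodpos : (0 : ℝ) < ∏ p ∈ n.primeFactors, (n.factorization p : ℝ) := by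
    apply Finset.prod_pos
    intro p hp
    rw [Nat.mem_primeFactors] at hp
    exact_mod_cast hp.1.factorization_pos_of_dvd hp.2.2 hp.2.1
  have hM : ∀ p ∈ n.primeFactors, (n.factorization p : ℝ) ≤ 2 * L := by
    intro p hp
    rw [Nat.mem_primeFactors] at hp
    have h3 : 2 ^ n.factorization p ≤ n :=
      (Nat.pow_le_pow_left hp.1.two_le _).trans (Nat.le_of_dvd (Nat.pos_of_ne_zero hn0)
        (Nat.ordProj_dvd n p))
    have h4 : (2 : ℝ) ^ n.factorization p ≤ n := by exact_mod_cast h3
    have h5 := Real.log_le_log (by positivity) h4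
    rw [Real.log_pow] at h5
    have h6 : (1 : ℝ) / 2 < Real.log 2 := by
      have := Real.log_two_gt_d9; linarith
    have h7 : (0 : ℝ) ≤ n.factorization p := Nat.cast_nonneg _
    nlinarith
  have hy : 1 < L ^ θ := Real.one_lt_rpow (by linarith) hθ0
  have hsum := sum_log_le hy (by linarith : (1 : ℝ) ≤ 2 * L) hM
  rw [Real.log_rpow hL0, ← hL] at hsum
  have hlogM : Real.log (2 * L) ≤ 2 * Real.log L := by
    have : Real.log (2 * L) ≤ Real.log (L * L) :=
      Real.log_le_log (by linarith) (by nlinarith)
    rw [Real.log_mul hL0.ne' hL0.ne'] at this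
    linarith
  have hlogprod : Real.log (∏ p ∈ n.primeFactors, (n.factorization p : ℝ)) =
      ∑ p ∈ n.primeFactors, Real.log (n.factorization p) := by
    apply Real.log_prod
    intro p hp
    rw [Nat.mem_primeFactors] at hp
    have : 0 < n.factorization p := hp.1.factorization_pos_of_dvd hp.2.2 hp.2.1
    positivity
  have hmain : Real.log (∏ p ∈ n.primeFactors, (n.factorization p : ℝ)) <
      c / Real.log L * L := by
    rw [hlogprod]
    refine lt_of_le_of_lt hsum ?_
    have e1 : Real.log 3 / 3 * (L / (θ * Real.log L)) = c' * L / Real.log L := by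
      rw [hθ]; field_simp
    have e2 : L ^ θ * Real.log (2 * L) ≤ L ^ θ * (2 * Real.log L) :=
      mul_le_mul_of_nonneg_left hlogM (by positivity)
    have e3 : L ^ θ * (2 * Real.log L) < (c - c') * L / Real.log L := by
      rw [lt_div_iff₀ (by linarith)]
      have hpθ : 0 < L ^ θ := by positivity
      have e4 : L = L ^ θ * L ^ (1 - θ) := by
        rw [← Real.rpow_add hL0]; norm_num
      calc L ^ θ * (2 * Real.log L) * Real.log L = L ^ θ * (2 * Real.log L ^ 2) := by ring
        _ < L ^ θ * ((c - c') * L ^ (1 - θ)) := by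
          exact mul_lt_mul_of_pos_left h1 hpθ
        _ = (c - c') * (L ^ θ * L ^ (1 - θ)) := by ring
        _ = (c - c') * L := by rw [← e4]
    rw [e1]
    have e5 : c / Real.log L * L = (c - c') * L / Real.log L + c' * L / Real.log L := by
      field_simp; ring
    rw [e5]
    linarith
  have hfin : ∏ p ∈ n.primeFactors, (n.factorization p : ℝ) < (n : ℝ) ^ (c / Real.log L) := by
    rw [← Real.log_lt_log_iff hprodpos (Real.rpow_pos_of_pos hnpos _), Real.log_rpow hnpos]
    exact hmain
  refine lt_of_le_of_lt ?_ hfin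
  exact_mod_cast hcard

end Pool.Agent.Results.MP_253cbc_nt.ExponentLogThree
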